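import Mathlib

open Matrix Polynomial

namespace Pool.Agent.Results.MP_a6de22_an.Counter

/-- normal defect -/
noncomputable def nd {m : ℕ} (X : Matrix (Fin m) (Fin m) ℂ) : ℕ :=
  sInf {k | ∃ Y : Matrix (Fin m ⊕ Fin k) (Fin m ⊕ Fin k) ℂ, Y * Yᴴ = Yᴴ * Y ∧ Y.toBlocks₁₁ = X}

/-- max of the numbers of positive and of negative eigenvalues of the self-commutator -/
noncomputable def eps {m : ℕ} (X : Matrix (Fin m) (Fin m) ℂ) : ℕ :=
  max ((X * Xᴴ - Xᴴ * X).charpoly.roots.filter fun z => 0 < z.re).card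
    ((X * Xᴴ - Xᴴ * X).charpoly.roots.filter fun z => z.re < 0).card

/-- cyclic weighted shift -/
def cyc {n : ℕ} (a : Fin n → ℂ) : Matrix (Fin n) (Fin n) ℂ :=
  Matrix.of fun i j => if (j : ℕ) = ((i : ℕ) + 1) % n then a i else 0

/-- truncated weighted shift -/
def trunc {n : ℕ} (a : Fin n → ℂ) : Matrix (Fin (n + 1)) (Fin (n + 1)) ℂ :=
  Matrix.of fun i j => if h : (i : ℕ) < n ∧ (j : ℕ) = (i : ℕ) + 1 then a ⟨i, h.1⟩ else 0

lemma roots_diag {m : ℕ} (d : Fin m → ℂ) :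
    (diagonal d).charpoly.roots = Finset.univ.val.map d := by
  rw [charpoly_diagonal]
  have := roots_multiset_prod_X_sub_C (Finset.univ.val.map d)
  rw [Multiset.map_map] at this
  exact this

def a0 : Fin 4 → ℂ := ![1, 2, 1, 1]

lemma cyc_eq : cyc a0 = !![0, 1, 0, 0; 0, 0, 2, 0; 0, 0, 0, 1; 1, 0, 0, 0] := by
  ext i j; fin_cases i <;> fin_cases j <;> simp [cyc, a0]

lemma trunc_eq : trunc a0 =
    !![0, 1, 0, 0, 0; 0, 0, 2, 0, 0; 0, 0, 0, 1, 0; 0, 0, 0, 0, 1; 0, 0, 0, 0, 0] := by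
  ext i j; fin_cases i <;> fin_cases j <;> simp [trunc, a0]

lemma eps_cyc : eps (cyc a0) = 1 := by
  have : cyc a0 * (cyc a0)ᴴ - (cyc a0)ᴴ * cyc a0 = diagonal ![0, 3, -3, 0] := by
    rw [cyc_eq]
    ext i j
    simp only [Matrix.sub_apply, Matrix.mul_apply, Fin.sum_univ_four, conjTranspose_apply]
    fin_cases i <;> fin_cases j <;> simp [map_ofNat] <;> norm_num
  unfold eps
  rw [this, roots_diag, Multiset.filter_map, Multiset.filter_map, Multiset.card_map,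
    Multiset.card_map]
  simp only [← Finset.filter_val, ← Finset.card_def, Finset.card_filter, Fin.sum_univ_four]
  simp
  norm_num

lemma eps_trunc : eps (trunc a0) = 2 := by
  have : trunc a0 * (trunc a0)ᴴ - (trunc a0)ᴴ * trunc a0 = diagonal ![1, 3, -3, 0, -1] := by
    rw [trunc_eq]
    ext i j
    simp only [Matrix.sub_apply, Matrix.mul_apply, Fin.sum_univ_succ, conjTranspose_apply]
    fin_cases i <;> fin_cases j <;> simp [map_ofNat] <;> norm_num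
  unfold eps
  rw [this, roots_diag, Multiset.filter_map, Multiset.filter_map, Multiset.card_map,
    Multiset.card_map]
  simp only [← Finset.filter_val, ← Finset.card_def, Finset.card_filter, Fin.sum_univ_five]
  simp
  norm_num

lemma normal_int {m k : ℕ} (Z : Matrix (Fin m ⊕ Fin k) (Fin m ⊕ Fin k) ℤ)
    (h : Z * Zᵀ = Zᵀ * Z) :
    Z.map (Int.castRingHom ℂ) * (Z.map (Int.castRingHom ℂ))ᴴ =
      (Z.map (Int.castRingHom ℂ))ᴴ * Z.map (Int.castRingHom ℂ) := by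
  have : (Z.map (Int.castRingHom ℂ))ᴴ = Zᵀ.map (Int.castRingHom ℂ) := by
    ext i j; simp
  rw [this, ← Matrix.map_mul, ← Matrix.map_mul, h]

lemma trunc_mem : ∃ Y : Matrix (Fin 5 ⊕ Fin 2) (Fin 5 ⊕ Fin 2) ℂ,
    Y * Yᴴ = Yᴴ * Y ∧ Y.toBlocks₁₁ = trunc a0 := by
  refine ⟨_, normal_int (fromBlocks
    !![0, 1, 0, 0, 0; 0, 0, 2, 0, 0; 0, 0, 0, 1, 0; 0, 0, 0, 0, 1; 0, 0, 0, 0, 0]
    !![0, 0; 2, 3; 2, 0; 0, 0; 1, 2] !![0, 4, 1, 0, 2; 1, 0, 0, 0, 0] !![4, 2; 4, 0])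
    (by decide +kernel), ?_⟩
  rw [trunc_eq]
  ext i j; fin_cases i <;> fin_cases j <;> simp [toBlocks₁₁]

lemma nd_trunc : nd (trunc a0) ≤ 2 := Nat.sInf_le trunc_mem

lemma nd_cyc : nd (cyc a0) = 2 := by
  have h2 : 2 ∈ {k | ∃ Y : Matrix (Fin 4 ⊕ Fin k) (Fin 4 ⊕ Fin k) ℂ, Y * Yᴴ = Yᴴ * Y ∧
      Y.toBlocks₁₁ = cyc a0} := by
    refine ⟨_, normal_int (fromBlocks !![0, 1, 0, 0; 0, 0, 2, 0; 0, 0, 0, 1; 1, 0, 0, 0]
      !![1, 0; -1, -1; 1, -2; -1, 0] !![-1, 1, -1, 1; 0, -2, -1, 0] !![-1, 1; 1, 4])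
      (by decide +kernel), ?_⟩
    rw [cyc_eq]
    ext i j; fin_cases i <;> fin_cases j <;> simp [toBlocks₁₁]
  refine le_antisymm (Nat.sInf_le h2) (le_csInf ⟨2, h2⟩ ?_)
  rintro k ⟨Y, hY, hA⟩
  by_contra hk
  rw [cyc_eq] at hA
  rw [← fromBlocks_toBlocks Y, hA] at hY
  generalize Y.toBlocks₁₂ = U at hY
  generalize Y.toBlocks₂₁ = V at hY
  generalize Y.toBlocks₂₂ = W at hY
  have e := fun i j => congrFun (congrFun hY i) j
  obtain rfl | rfl : k = 0 ∨ k = 1 := by omega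
  · have := e (Sum.inl 1) (Sum.inl 1)
    simp [Matrix.mul_apply, Fin.sum_univ_four, map_ofNat] at this
    norm_num at this
  · have e00 := e (Sum.inl 0) (Sum.inl 0)
    have e11 := e (Sum.inl 1) (Sum.inl 1)
    have e33 := e (Sum.inl 3) (Sum.inl 3)
    have e01 := congrArg Complex.normSq (e (Sum.inl 0) (Sum.inl 1))
    have e31 := congrArg Complex.normSq (e (Sum.inl 3) (Sum.inl 1))
    have e04 := e (Sum.inl 0) (Sum.inr 0)
    simp [Matrix.mul_apply, Fin.sum_univ_four, Complex.mul_conj, ← Complex.normSq_eq_conj_mul_self,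
      map_ofNat]
      at e00 e11 e33 e01 e31 e04
    have e11' : 2 * 2 + Complex.normSq (U 1 0) = 1 + Complex.normSq (V 0 1) := by
      exact_mod_cast e11
    have a0 : Complex.normSq (U 0 0) = 0 := by
      rw [← e00] at e01; nlinarith [Complex.normSq_nonneg (U 0 0)]
    have a3 : Complex.normSq (U 3 0) = 0 := by
      rw [← e33] at e31; nlinarith [Complex.normSq_nonneg (U 3 0)]
    rw [a0] at e00
    rw [Complex.normSq_eq_zero.1 a0, Complex.normSq_eq_zero.1 a3,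
      Complex.normSq_eq_zero.1 e00.symm] at e04
    simp at e04
    rw [e04] at e11'
    simp at e11'
    nlinarith [Complex.normSq_nonneg (U 1 0)]

theorem result : ∃ (n : ℕ) (a : Fin n → ℂ), 4 ≤ n ∧ nd (cyc a) = eps (cyc a) + 1 ∧
    nd (trunc a) ≠ eps (trunc a) + 1 ∧
    ∃ Y : Matrix (Fin (n + 1) ⊕ Fin (nd (trunc a))) (Fin (n + 1) ⊕ Fin (nd (trunc a))) ℂ,
      Y * Yᴴ = Yᴴ * Y ∧ Y.toBlocks₁₁ = trunc a := by
  refine ⟨4, a0, le_rfl, by rw [nd_cyc, eps_cyc], by have := nd_trunc; rw [eps_trunc]; omega, ?_⟩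
  exact Nat.sInf_mem (s := {k | ∃ Y : Matrix (Fin 5 ⊕ Fin k) (Fin 5 ⊕ Fin k) ℂ,
    Y * Yᴴ = Yᴴ * Y ∧ Y.toBlocks₁₁ = trunc a0}) ⟨2, trunc_mem⟩

end Pool.Agent.Results.MP_a6de22_an.Counter
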